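import Pool.Agent.H66.OC.GraP

/-!
# Theorem OCM, row R5: ONE ROW (sections 5 of K_OCM_helper10, 4 of K_OCL_h46)

`φ i p` is the value of a sample `p` at the scale `i`.  Most pairs of samples with
`i + i' ∈ F` (and scales which are `gap` apart) satisfy `φ + φ' = 0` up to `δ`.  If `F` is thick and
has positive density, then `φ` is small for most samples.
-/

set_option autoImplicit false

namespace Pool.OCM

open Finset Pool.OC

/-- the pairs of scales which can be compared -/
def Cmp (F : Set ℕ) (gap i i' : ℕ) : Prop := i + i' ∈ F ∧ (i + gap ≤ i' ∨ i' + gap ≤ i)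

theorem Cmp.symm {F : Set ℕ} {gap i i' : ℕ} (h : Cmp F gap i i') : Cmp F gap i' i :=
  ⟨by rw [add_comm]; exact h.1, h.2.symm⟩

/-- some value is at most the average -/
theorem exists_le_avg {P : Type*} [Fintype P] {w g : P → ℝ} (h0 : ∀ p, 0 ≤ w p)
    (h1 : ∑ p, w p = 1) : ∃ p, g p ≤ ∑ q, w q * g q := by
  by_contra hcon
  push Not at hcon
  set A := ∑ q, w q * g q with hA
  have e1 : A = ∑ q, w q * A := by rw [← sum_mul, h1, one_mul]
  have h3 : ∃ q ∈ (univ : Finset P), w q * A < w q * g q := by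
    by_contra h4
    push Not at h4
    have h5 : ∀ q, w q = 0 := by
      intro q
      by_contra h6
      have h7 : 0 < w q := lt_of_le_of_ne (h0 q) (Ne.symm h6)
      exact absurd (mul_lt_mul_of_pos_left (hcon q) h7) (not_lt.2 (h4 q (mem_univ q)))
    simp only [h5, sum_const_zero] at h1
    exact zero_ne_one h1
  have h4 : ∑ q, w q * A < ∑ q, w q * g q :=
    sum_lt_sum (fun q _ => mul_le_mul_of_nonneg_left (hcon q).le (h0 q)) h3
  linarith

theorem sum_mul_sum_aux {P Q : Type*} [Fintype P] [Fintype Q] (w : P → ℝ) (w' : Q → ℝ) (c : ℝ)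
    (h : ∑ p, w p = 1) (h' : ∑ q, w' q = 1) : ∑ p, ∑ q, w p * w' q * c = c := by
  have : ∀ p, ∑ q, w p * w' q * c = w p * c := by
    intro p
    rw [← sum_mul, ← mul_sum, h', mul_one]
  simp only [this]
  rw [← sum_mul, h, one_mul]

variable {E : Type*} [NormedAddCommGroup E]

open Classical in
/-- a bad pair of samples -/
noncomputable def bd {P : Type*} (F : Set ℕ) (gap : ℕ) (φ : ℕ → P → E) (δ : ℝ) (i : ℕ) (p : P)
    (i' : ℕ) (p' : P) : ℝ :=
  if Cmp F gap i i' ∧ δ < ‖φ i p + φ i' p'‖ then 1 else 0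

theorem bd_nonneg {P : Type*} (F : Set ℕ) (gap : ℕ) (φ : ℕ → P → E) (δ : ℝ) (i : ℕ) (p : P)
    (i' : ℕ) (p' : P) : 0 ≤ bd F gap φ δ i p i' p' := by
  unfold bd; split_ifs <;> norm_num

/-- `φ + φ' = 0` for most pairs of samples of comparable scales -/
structure RelHyp {P : Type*} [Fintype P] (X gap : ℕ) (F : Set ℕ) (w : ℕ → P → ℝ)
    (φ : ℕ → P → E) (δ ε : ℝ) : Prop where
  δ0 : 0 ≤ δ
  w0 : ∀ i < X, ∀ p, 0 ≤ w i p
  w1 : ∀ i < X, ∑ p, w i p = 1
  rel : ∑ i ∈ range X, ∑ i' ∈ range X, ∑ p, ∑ p', w i p * w i' p' * bd F gap φ δ i p i' p' ≤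
    ε * X ^ 2

open Classical in
/-- on a block of scales `φ` has one value -/
theorem block_value {P : Type*} [Fintype P] {X gap : ℕ} {F : Set ℕ} {w : ℕ → P → ℝ}
    {φ : ℕ → P → E} {δ ε : ℝ} (H : RelHyp X gap F w φ δ ε) {b L X₀ : ℕ} (hL : 0 < L)
    (hbL : b + L ≤ X) (hX₀ : X₀ ≤ X) (hLX : L ≤ X₀) {J : Finset ℕ}
    (hJ : ∀ σ ∈ J, L ≤ σ ∧ σ < X₀ ∧ b + σ ∈ F) {u : ℝ} (hu : 0 < u) (hc : u * X₀ ≤ J.card)
    (ht : (4 : ℝ) * ((J.filter fun σ => σ + 1 ∉ J).card : ℝ) ≤ J.card) {n : ℕ}
    (hn : 3 / u ≤ n) : ∃ La : E,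
    ∑ i ∈ range L, ∑ p, w (b + i) p *
      (if (2 * n.factorial + 1) * (2 * δ) < ‖φ (b + i) p - La‖ then 1 else 0) ≤
      (64 * n.factorial + 2) * ((2 * gap * L + ε * X ^ 2) / (u * X₀)) := by
  have hX0pos : (0 : ℝ) < X₀ := by exact_mod_cast lt_of_lt_of_le hL hLX
  have hJpos : (0 : ℝ) < J.card := lt_of_lt_of_le (mul_pos hu hX0pos) hc
  -- representatives
  set R : ℕ → P → ℝ := fun s q => ∑ i ∈ range X, ∑ p, w i p * bd F gap φ δ i p s q with hR
  have htot : ∑ s ∈ range X, ∑ q, w s q * R s q ≤ ε * X ^ 2 := by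
    refine le_trans (le_of_eq ?_) H.rel
    simp only [hR, mul_sum]
    rw [show (∑ i ∈ range X, ∑ i' ∈ range X, ∑ p, ∑ p', w i p * w i' p' *
        bd F gap φ δ i p i' p') = ∑ i' ∈ range X, ∑ i ∈ range X, ∑ p, ∑ p', w i p * w i' p' *
        bd F gap φ δ i p i' p' from sum_comm]
    refine sum_congr rfl fun s _ => ?_
    rw [sum_comm]
    refine sum_congr rfl fun i _ => ?_
    rw [sum_comm]
    refine sum_congr rfl fun p _ => sum_congr rfl fun q _ => ?_
    ring
  have hrep : ∀ s, s < X → ∃ q, R s q ≤ ∑ q, w s q * R s q := fun s hs =>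
    exists_le_avg (H.w0 s hs) (H.w1 s hs)
  have hP : Nonempty P := by
    obtain ⟨p, _⟩ := hrep 0 (lt_of_lt_of_le hL (le_trans hLX hX₀))
    exact ⟨p⟩
  choose! r hr using hrep
  have hRr : ∑ s ∈ range X, R s (r s) ≤ ε * X ^ 2 :=
    le_trans (sum_le_sum fun s hs => hr s (mem_range.1 hs)) htot
  have hRr' : ∑ i ∈ range X, ∑ p, w i p * ∑ s ∈ range X, bd F gap φ δ i p s (r s) ≤
      ε * X ^ 2 := by
    refine le_trans (le_of_eq ?_) hRr
    simp only [hR, mul_sum]
    rw [show (∑ s ∈ range X, ∑ i ∈ range X, ∑ p, w i p * bd F gap φ δ i p s (r s)) =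
      ∑ i ∈ range X, ∑ s ∈ range X, ∑ p, w i p * bd F gap φ δ i p s (r s) from sum_comm]
    refine sum_congr rfl fun i _ => ?_
    rw [sum_comm]
  have hε : 0 ≤ ε * X ^ 2 := by
    refine le_trans ?_ hRr'
    exact sum_nonneg fun i hi => sum_nonneg fun p _ => mul_nonneg (H.w0 i (mem_range.1 hi) p)
      (sum_nonneg fun s _ => bd_nonneg _ _ _ _ _ _ _ _)
  -- the edges
  set G : ℕ → ℕ → P → Prop := fun σ i p =>
    ((b + i) + gap ≤ σ - i ∨ (σ - i) + gap ≤ b + i) ∧
      ‖φ (b + i) p + φ (σ - i) (r (σ - i))‖ ≤ δ with hG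
  set B : ℝ := 2 * gap * L + ε * X ^ 2 with hB
  have hB0 : 0 ≤ B := by positivity
  have hcnt : ∀ i < L, ∀ p, ((J.filter fun σ => ¬ G σ i p).card : ℝ) ≤
      2 * gap + ∑ s ∈ range X, bd F gap φ δ (b + i) p s (r s) := by
    intro i hi p
    set A₁ := J.filter fun σ => ¬ ((b + i) + gap ≤ σ - i ∨ (σ - i) + gap ≤ b + i) with hA₁
    set A₂ := J.filter fun σ => Cmp F gap (b + i) (σ - i) ∧
      δ < ‖φ (b + i) p + φ (σ - i) (r (σ - i))‖ with hA₂
    have hsub : (J.filter fun σ => ¬ G σ i p) ⊆ A₁ ∪ A₂ := by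
      intro σ hσ
      rw [mem_filter] at hσ
      obtain ⟨h1, h2⟩ := hσ
      rw [mem_union, hA₁, hA₂, mem_filter, mem_filter]
      by_cases h3 : (b + i) + gap ≤ σ - i ∨ (σ - i) + gap ≤ b + i
      · right
        refine ⟨h1, ⟨?_, h3⟩, ?_⟩
        · have h4 := hJ σ h1
          have h5 : b + i + (σ - i) = b + σ := by omega
          rw [h5]
          exact h4.2.2
        · by_contra h4
          exact h2 ⟨h3, not_lt.1 h4⟩
      · exact Or.inl ⟨h1, h3⟩
    have hc1 : (A₁.card : ℝ) ≤ 2 * gap := by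
      have : A₁.card ≤ (Finset.Ico (b + i + 1 - gap) (b + i + gap)).card := by
        refine card_le_card_of_injOn (fun σ => σ - i) ?_ ?_
        · intro σ hσ
          rw [mem_coe, hA₁, mem_filter] at hσ
          rw [mem_coe, mem_Ico]
          have := hσ.2
          push Not at this
          dsimp only
          constructor <;> omega
        · intro σ hσ σ' hσ' he
          rw [mem_coe, hA₁, mem_filter] at hσ hσ'
          have h1 := (hJ σ hσ.1).1
          have h2 := (hJ σ' hσ'.1).1
          dsimp only at he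
          omega
      rw [Nat.card_Ico] at this
      have h2 : A₁.card ≤ 2 * gap := by omega
      exact_mod_cast h2
    have hc2 : (A₂.card : ℝ) ≤ ∑ s ∈ range X, bd F gap φ δ (b + i) p s (r s) := by
      have e1 : ∑ s ∈ range X, bd F gap φ δ (b + i) p s (r s) =
          (((range X).filter fun s => Cmp F gap (b + i) s ∧
            δ < ‖φ (b + i) p + φ s (r s)‖).card : ℝ) := by
        rw [card_filter, Nat.cast_sum]
        refine sum_congr rfl fun s _ => ?_
        unfold bd
        push_cast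
        rfl
      rw [e1]
      have : A₂.card ≤ ((range X).filter fun s => Cmp F gap (b + i) s ∧
            δ < ‖φ (b + i) p + φ s (r s)‖).card := by
        refine card_le_card_of_injOn (fun σ => σ - i) ?_ ?_
        · intro σ hσ
          rw [mem_coe, hA₂, mem_filter] at hσ
          rw [mem_coe, mem_filter, mem_range]
          have h1 := hJ σ hσ.1
          dsimp only
          exact ⟨by omega, hσ.2⟩
        · intro σ hσ σ' hσ' he
          rw [mem_coe, hA₂, mem_filter] at hσ hσ'
          have h1 := (hJ σ hσ.1).1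
          have h2 := (hJ σ' hσ'.1).1
          dsimp only at he
          omega
      exact_mod_cast this
    have h3 := le_trans (card_le_card hsub) (card_union_le _ _)
    have h4 : ((J.filter fun σ => ¬ G σ i p).card : ℝ) ≤ A₁.card + A₂.card := by
      exact_mod_cast h3
    linarith
  have hbad : ∑ i ∈ range L, ∑ p, w (b + i) p * ((J.filter fun σ => ¬ G σ i p).card : ℝ) ≤
      B := by
    have h1 : ∑ i ∈ range L, ∑ p, w (b + i) p * ((J.filter fun σ => ¬ G σ i p).card : ℝ) ≤
        ∑ i ∈ range L, ∑ p, w (b + i) p *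
          (2 * gap + ∑ s ∈ range X, bd F gap φ δ (b + i) p s (r s)) := by
      refine sum_le_sum fun i hi => sum_le_sum fun p _ => ?_
      have hi' := mem_range.1 hi
      exact mul_le_mul_of_nonneg_left (hcnt i hi' p) (H.w0 (b + i) (by omega) p)
    refine le_trans h1 ?_
    simp only [mul_add, sum_add_distrib]
    have h2 : ∑ i ∈ range L, ∑ p, w (b + i) p * (2 * (gap : ℝ)) = 2 * gap * L := by
      have : ∀ i ∈ range L, ∑ p, w (b + i) p * (2 * (gap : ℝ)) = 2 * gap := by
        intro i hi
        have hi' := mem_range.1 hi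
        rw [← sum_mul, H.w1 (b + i) (by omega), one_mul]
      rw [sum_congr rfl this, sum_const, card_range, nsmul_eq_mul]
      ring
    have h3 : ∑ i ∈ range L, ∑ p, w (b + i) p *
        ∑ s ∈ range X, bd F gap φ δ (b + i) p s (r s) ≤ ε * X ^ 2 := by
      refine le_trans ?_ hRr'
      have h4 : ∑ i ∈ range L, ∑ p, w (b + i) p *
          ∑ s ∈ range X, bd F gap φ δ (b + i) p s (r s) =
          ∑ j ∈ (range L).image (fun i => b + i), ∑ p, w j p *
          ∑ s ∈ range X, bd F gap φ δ j p s (r s) := by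
        rw [sum_image]
        intro i _ j _ hij
        simpa using hij
      rw [h4]
      refine sum_le_sum_of_subset_of_nonneg ?_ ?_
      · intro j hj
        rw [mem_image] at hj
        obtain ⟨i, hi, rfl⟩ := hj
        rw [mem_range] at hi ⊢
        omega
      · intro j hj _
        exact sum_nonneg fun p _ => mul_nonneg (H.w0 j (mem_range.1 hj) p)
          (sum_nonneg fun s _ => bd_nonneg _ _ _ _ _ _ _ _)
    rw [h2]
    linarith
  set ε' : ℝ := B / (J.card * L) with hε'
  have hLpos : (0 : ℝ) < L := by exact_mod_cast hL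
  have hJL : (0 : ℝ) < J.card * L := mul_pos hJpos hLpos
  have HG : GrapHyp L X₀ J (fun i p => w (b + i) p) G (fun i p => φ (b + i) p) (2 * δ) ε' u :=
    { L0 := hL
      LX := hLX
      d0 := by have := H.δ0; positivity
      ε0 := div_nonneg hB0 hJL.le
      u0 := hu
      w0 := fun i hi p => H.w0 (b + i) (by omega) p
      w1 := fun i hi => H.w1 (b + i) (by omega)
      JX := fun σ hσ => (hJ σ hσ).2.1
      Jcard := hc
      thick := ht
      agree := by
        intro σ hσ σ' hσ' i hi i' hi' p p' he h1 h2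
        have h3 := (hJ σ hσ).1
        have h4 := (hJ σ' hσ').1
        have h5 : σ - i = σ' - i' := by omega
        have h6 := h1.2
        have h7 := h2.2
        rw [← h5] at h7
        rw [dist_eq_norm]
        have h8 : φ (b + i) p - φ (b + i') p' =
            (φ (b + i) p + φ (σ - i) (r (σ - i))) - (φ (b + i') p' + φ (σ - i) (r (σ - i))) := by
          abel
        rw [h8]
        refine le_trans (norm_sub_le _ _) ?_
        linarith
      bad := by
        rw [hε', div_mul_cancel₀ _ hJL.ne']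
        convert hbad }
  obtain ⟨La, hLa⟩ := grap_thm HG hn
  refine ⟨La, ?_⟩
  have e1 : (64 * (n.factorial : ℝ) + 2) * ε' * L = (64 * n.factorial + 2) * (B / J.card) := by
    rw [hε']
    field_simp
  have e2 : B / J.card ≤ B / (u * X₀) :=
    div_le_div_of_nonneg_left hB0 (mul_pos hu hX0pos) hc
  calc ∑ i ∈ range L, ∑ p, w (b + i) p *
      (if (2 * n.factorial + 1) * (2 * δ) < ‖φ (b + i) p - La‖ then 1 else 0)
      = ∑ i ∈ range L, ∑ p, w (b + i) p *
      (if (2 * n.factorial + 1) * (2 * δ) < dist (φ (b + i) p) La then 1 else 0) := by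
        simp only [dist_eq_norm]
    _ ≤ (64 * n.factorial + 2) * ε' * L := hLa
    _ = (64 * n.factorial + 2) * (B / J.card) := e1
    _ ≤ (64 * n.factorial + 2) * (B / (u * X₀)) :=
        mul_le_mul_of_nonneg_left e2 (by positivity)

open Classical in
/-- **One row.**  On a block of scales `φ` is small. -/
theorem one_row [NormedSpace ℝ E] {P : Type*} [Fintype P] {X gap : ℕ} {F : Set ℕ}
    {w : ℕ → P → ℝ} {φ : ℕ → P → E} {δ ε : ℝ} (H : RelHyp X gap F w φ δ ε) {b L X₀ : ℕ}
    (hL : 0 < L) (hbL : b + L ≤ X) (hX₀ : X₀ ≤ X) (hLX : L ≤ X₀) {J : Finset ℕ}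
    (hJ : ∀ σ ∈ J, L ≤ σ ∧ σ < X₀ ∧ b + σ ∈ F) {u : ℝ} (hu : 0 < u) (hc : u * X₀ ≤ J.card)
    (ht : (4 : ℝ) * ((J.filter fun σ => σ + 1 ∉ J).card : ℝ) ≤ J.card) {n : ℕ}
    (hn : 3 / u ≤ n) {D : ℝ}
    (hD : (64 * n.factorial + 2) * ((2 * gap * L + ε * X ^ 2) / (u * X₀)) ≤ D)
    (hpairs : ε * X ^ 2 + 2 * L * D <
      ∑ i ∈ range L, ∑ i' ∈ range L, (if Cmp F gap (b + i) (b + i') then (1 : ℝ) else 0)) :
    ∑ i ∈ range L, ∑ p, w (b + i) p *
      (if (8 * n.factorial + 5) * δ < ‖φ (b + i) p‖ then 1 else 0) ≤ D := by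
  obtain ⟨La, hLa⟩ := block_value H hL hbL hX₀ hLX hJ hu hc ht hn
  set N : ℝ := (n.factorial : ℝ) with hN
  have hN0 : 0 ≤ N := by positivity
  have hδ := H.δ0
  set M₀ : ℝ := (2 * N + 1) * (2 * δ) with hM₀
  have hLaD := le_trans hLa hD
  set far : ℕ → P → ℝ := fun i p => if M₀ < ‖φ (b + i) p - La‖ then 1 else 0 with hfar
  have hfar0 : ∀ i p, 0 ≤ far i p := by
    intro i p; simp only [hfar]; split_ifs <;> norm_num
  -- the value is small
  have hLa0 : 2 * ‖La‖ ≤ δ + 2 * M₀ := by
    by_contra hcon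
    push Not at hcon
    have hpt : ∀ i i' p p', (if Cmp F gap (b + i) (b + i') then (1 : ℝ) else 0) ≤
        bd F gap φ δ (b + i) p (b + i') p' + far i p + far i' p' := by
      intro i i' p p'
      have b0 := bd_nonneg F gap φ δ (b + i) p (b + i') p'
      by_cases h1 : Cmp F gap (b + i) (b + i')
      · rw [if_pos h1]
        by_cases h2 : M₀ < ‖φ (b + i) p - La‖
        · have : far i p = 1 := by simp only [hfar]; rw [if_pos h2]
          have := hfar0 i' p'
          linarith
        · by_cases h3 : M₀ < ‖φ (b + i') p' - La‖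
          · have : far i' p' = 1 := by simp only [hfar]; rw [if_pos h3]
            have := hfar0 i p
            linarith
          · push Not at h2 h3
            have h4 : (2 : ℝ) • La = (φ (b + i) p + φ (b + i') p') - (φ (b + i) p - La) -
                (φ (b + i') p' - La) := by
              rw [two_smul]; abel
            have h5 : ‖(2 : ℝ) • La‖ ≤ ‖φ (b + i) p + φ (b + i') p'‖ + ‖φ (b + i) p - La‖ +
                ‖φ (b + i') p' - La‖ := by
              rw [h4]
              exact le_trans (norm_sub_le _ _) (by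
                have := norm_sub_le (φ (b + i) p + φ (b + i') p') (φ (b + i) p - La)
                linarith)
            rw [norm_smul, Real.norm_two] at h5
            have h6 : δ < ‖φ (b + i) p + φ (b + i') p'‖ := by linarith
            have h7 : bd F gap φ δ (b + i) p (b + i') p' = 1 := by
              unfold bd; rw [if_pos ⟨h1, h6⟩]
            have h8 := hfar0 i p
            have h9 := hfar0 i' p'
            linarith
      · rw [if_neg h1]
        have h8 := hfar0 i p
        have h9 := hfar0 i' p'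
        linarith
    have hsum : ∑ i ∈ range L, ∑ i' ∈ range L,
        (if Cmp F gap (b + i) (b + i') then (1 : ℝ) else 0) ≤ ε * X ^ 2 + 2 * L * D := by
      have h1 : ∀ i ∈ range L, ∀ i' ∈ range L,
          (if Cmp F gap (b + i) (b + i') then (1 : ℝ) else 0) ≤
          (∑ p, ∑ p', w (b + i) p * w (b + i') p' * bd F gap φ δ (b + i) p (b + i') p') +
            (∑ p, w (b + i) p * far i p) + ∑ p', w (b + i') p' * far i' p' := by
        intro i hi i' hi'
        rw [mem_range] at hi hi'
        have w1 := H.w1 (b + i) (by omega)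
        have w1' := H.w1 (b + i') (by omega)
        have w0 := H.w0 (b + i) (by omega)
        have w0' := H.w0 (b + i') (by omega)
        have e1 : (if Cmp F gap (b + i) (b + i') then (1 : ℝ) else 0) =
            ∑ p, ∑ p', w (b + i) p * w (b + i') p' *
              (if Cmp F gap (b + i) (b + i') then (1 : ℝ) else 0) := by
          rw [sum_mul_sum_aux (w (b + i)) (w (b + i')) _ w1 w1']
        have e2 : (∑ p, w (b + i) p * far i p) =
            ∑ p, ∑ p', w (b + i) p * w (b + i') p' * far i p := by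
          refine sum_congr rfl fun p _ => ?_
          rw [← sum_mul, ← mul_sum, w1', mul_one]
        have e3 : (∑ p', w (b + i') p' * far i' p') =
            ∑ p, ∑ p', w (b + i) p * w (b + i') p' * far i' p' := by
          rw [sum_comm]
          refine sum_congr rfl fun p' _ => ?_
          rw [← sum_mul, ← sum_mul, w1, one_mul]
        rw [e1, e2, e3, ← sum_add_distrib, ← sum_add_distrib]
        refine sum_le_sum fun p _ => ?_
        rw [← sum_add_distrib, ← sum_add_distrib]
        refine sum_le_sum fun p' _ => ?_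
        have h2 := hpt i i' p p'
        have h3 : 0 ≤ w (b + i) p * w (b + i') p' := mul_nonneg (w0 p) (w0' p')
        nlinarith [mul_le_mul_of_nonneg_left h2 h3]
      refine le_trans (sum_le_sum fun i hi => sum_le_sum fun i' hi' => h1 i hi i' hi') ?_
      simp only [sum_add_distrib, sum_const, card_range, nsmul_eq_mul]
      have h2 : ∑ i ∈ range L, ∑ i' ∈ range L, ∑ p, ∑ p', w (b + i) p * w (b + i') p' *
          bd F gap φ δ (b + i) p (b + i') p' ≤ ε * X ^ 2 := by
        refine le_trans ?_ H.rel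
        have hnn : ∀ i < X, ∀ i' < X, 0 ≤ ∑ p, ∑ p', w i p * w i' p' *
            bd F gap φ δ i p i' p' := fun i hi i' hi' =>
          sum_nonneg fun p _ => sum_nonneg fun p' _ => mul_nonneg
            (mul_nonneg (H.w0 i hi p) (H.w0 i' hi' p')) (bd_nonneg _ _ _ _ _ _ _ _)
        have hin : (range L).image (fun i => b + i) ⊆ range X := by
          intro j hj
          rw [mem_image] at hj
          obtain ⟨i, hi, rfl⟩ := hj
          rw [mem_range] at hi ⊢
          omega
        have hinj : ∀ f : ℕ → ℝ, ∑ i ∈ range L, f (b + i) =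
            ∑ j ∈ (range L).image (fun i => b + i), f j := by
          intro f
          rw [sum_image]
          intro i _ j _ hij
          simpa using hij
        rw [hinj (fun i => ∑ i' ∈ range L, ∑ p, ∑ p', w i p * w (b + i') p' *
          bd F gap φ δ i p (b + i') p')]
        refine le_trans (sum_le_sum (g := fun i => ∑ i' ∈ range X, ∑ p, ∑ p', w i p * w i' p' *
          bd F gap φ δ i p i' p') fun i hi => ?_) ?_
        · have hi' := mem_range.1 (hin hi)
          rw [hinj (fun i' => ∑ p, ∑ p', w i p * w i' p' * bd F gap φ δ i p i' p')]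
          exact sum_le_sum_of_subset_of_nonneg hin fun j hj _ => hnn i hi' j (mem_range.1 hj)
        · exact sum_le_sum_of_subset_of_nonneg hin fun j hj _ =>
            sum_nonneg fun i' hi' => hnn j (mem_range.1 hj) i' (mem_range.1 hi')
      have h3 : ∑ i ∈ range L, ∑ p, w (b + i) p * far i p ≤ D := hLaD
      have hL0 : (0 : ℝ) ≤ L := by positivity
      rw [← mul_sum]
      nlinarith
    linarith
  -- conclusion
  refine le_trans (sum_le_sum fun i hi => sum_le_sum fun p _ => ?_) hLaD
  rw [mem_range] at hi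
  refine mul_le_mul_of_nonneg_left ?_ (H.w0 (b + i) (by omega) p)
  by_cases h1 : M₀ < ‖φ (b + i) p - La‖
  · rw [if_pos h1]; split_ifs <;> norm_num
  · rw [if_neg h1, if_neg]
    push Not at h1 ⊢
    have h2 := norm_sub_norm_le (φ (b + i) p) La
    nlinarith

end Pool.OCM
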